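import Pool.Agent.R905.RF.Main

/-!
# Invariant classes at the generic points of affine spaces and the Tate conjecture
-/

set_option autoImplicit false

namespace Pool.Agent.Results.MP_677d84_ag.OddBidegreesOverRationalFields

open Pool.Agent.R905.RF

/-- Let `F` be a finite field, `K = ℚ_ℓ`, and `a, N ≥ 0`. The following statements are equivalent:

1. `H^{2s+1}(F_0 𝔸^n, ℚ_ℓ(s+1))^G = 0` for `s = n - a - 1 ≥ 1`, `n ≤ N + 1` (the fields
   `F(x_1, ..., x_n)`);
2. `H^{2s}(F_0 X̄, ℚ_ℓ(s))^G = 0` for all irreducible varieties `X` over `F` of dimension
   `d = a + s ≤ N`, `s ≥ 1`;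
3. for all varieties `X` over `F` of dimension at most `N`, the generalized eigenspace of the Frobenius
   for the eigenvalue one on the Borel–Moore homology `H_{2a}(X̄, ℚ_ℓ)(-a)` is spanned by cycle
   classes;
4. the Tate conjecture for cycles of dimension `a`, and the semisimplicity of the eigenvalue one, for
   the varieties of dimension at most `N` in a class `S` which dominates all these varieties, such as
   the smooth projective varieties. -/
theorem result (F : Type) [Field F] [Finite F] (K : Type) [Field K] (T : Theory F K)
    (hT : T.IsBorelMoore) (hF : HypersurfaceModels F) (a N : ℕ) (S : Var F → Prop)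
    (hS : T.Dominating S a N) :
    [T.RationalFunctionFields a N, T.FunctionFields a N, T.AllVarieties a N,
      T.TateSemisimple S a N].TFAE :=
  Theory.tfae_main hT hF a N S hS

end Pool.Agent.Results.MP_677d84_ag.OddBidegreesOverRationalFields
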