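import Pool.Agent.TH117.GN.Wt
import Pool.Agent.R299.FF2.Main

/-!
# The Tate conjecture for function fields of varieties generated by powers of the factors of abelian
# varieties of dimension at most five over finite fields

An abelian variety over the field with `p ^ a` elements is modelled by `RedAV` (Honda, Tate): a
finite product of CM types `(E i, Φ i)` with Weil numbers `π i ∈ E i` that satisfy the formula of
Shimura and Taniyama; its cohomology of degree `n`, with coefficients in an algebraically closed field
`Ω`, consists of the alternating `n`-forms on the Tate module `Ω ⊗ H_1`, on which the Frobenius
endomorphism acts by `π`.

We consider (`IsGood`) all abelian varieties `Y` that are isogenous, over an algebraic closure, to a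
product of powers of the factors of an abelian variety `Z'` and of a supersingular abelian variety of any
dimension, where one of the following holds (with any Newton polygons):

* the dimension of `Z'` is at most five, and no two factors of `Z'` form an exceptional pair: two
  non-Galois quartic CM fields with the same Galois closure, or CM fields of degrees 2 and 8, with a
  special relation between the Frobenius eigenvalues (`IsExceptionalPair`);
* the factors of `Z'` (in any number) have dimension at most three, and two factors whose CM fields
  have the same Galois closure are isogenous, unless these fields are Galois over `ℚ` or one of the
  two factors is supersingular.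

For example `Y` may be any power of a simple abelian variety of dimension four or five.

`Homology Ω V` are data of motivic homology `M X n j = H_n^M(X, ℚ(j)) = CH_j(X, n - 2 j) ⊗ ℚ` (higher
Chow groups) and of `ℓ`-adic homology `E X n j = H_n(X, ℚ_ℓ(j))` of schemes `X : V` of finite type over
finite fields, with the Frobenius and the regulator. Let `𝒢` (`Generated`) be the smallest class of
schemes that contains those with the homology groups of the abelian varieties above, that is closed
under direct summands of finite sums of twists of motives, and that contains all of a closed subscheme
`Z` of `X`, `X` and `X ∖ Z` if it contains two of them. For example, it contains all powers, and all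
symmetric powers, of a curve of genus at most five whose Jacobian variety has no exceptional pair of
factors, and the open and the singular varieties that are stratified by such varieties.

Let `X` be a variety in `𝒢`, geometrically integral, of dimension `d`, and let `G` be the groups of its
generic point, the direct limits of the groups of the nonempty open subvarieties (`IsGenericPoint`):
`G.E (2 d - i) (d - k) = H^i(F₀ X, ℚ_ℓ(k)) ⊗ Ω`, and `G.M (2 d - i) (d - k) = CH^k(Spec, 2 k - i) ⊗ ℚ`
for the function field.

**Theorem.** Each Frobenius invariant class in `H^i(F₀ X, ℚ_ℓ(k))` is a linear combination of images of
elements of `CH^k(Spec, 2 k - i)` (`GenericTate`) in the following cases: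

* `2 k ≤ i`, in particular `i = 2 k`: then, for `k ≥ 1`, there are no such classes except zero, since
  `CH^k(Spec, 0)` is zero;
* `i = k ≤ 2`: for `k = 2` the invariant classes in `H^2(F₀ X, ℚ_ℓ(2))` come from `K_2` of the function
  field;
* all `i` and `k`, if `d ≤ 2`.

The class is neither larger nor smaller than the one of the file `FiveAndSurfaces`: powers of simple
abelian varieties of dimension four and five, for instance, and the function fields of powers of curves
of genus four and five, are not covered there.

Here the closed complements `Z` of the open subvarieties are arbitrary closed subvarieties of smaller
dimension (they need not belong to `𝒢`), with the known properties `IsSmallVariety`: there are no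
invariants in `H_n(Z, ℚ_ℓ(j))` for `n < 2 j` (Deligne's theorem on weights); the invariants in degree
`2 (d - 1)`, with twist `d - 1`, are spanned by the classes of the components; the invariants of
`H_(2 (d - 1) - 1)(Z, ℚ_ℓ(d - 2))` come from units on the components (Kummer theory, and the weights of
the remaining part); if `dim Z ≤ 1` the surjectivity is known in all degrees (Weil, Harder, Soulé).

Properties of the theory of cycles that are used for the abelian varieties `Y` (`IsChow`,
`IsMotivic`): Poincaré duality, the formal properties of correspondences, the nilpotence of
homologically trivial correspondences (Kimura), the operation of the Frobenius endomorphism on higher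
Chow groups, the vanishing of the higher rational `K`-groups of a finite field (Quillen), and the
algebraicity of the classes in `Alg` (theorems of Tate and Markman). That all Tate classes on `Y` are in
`Alg` was proved in the starting files (helper117); the passage from the Tate conjecture to all degrees
and to the class `𝒢` is due to Soulé, Geisser, Kahn and Jannsen and was formalized there, too
(`tb_good2`, in `Pool/Agent/TH117/GN/Wt.lean`).
-/


namespace Pool.Agent.Results.MP_677d84_ag.PowersOfFactors

open Pool.Agent.W495.TA Pool.Agent.W495.FM Pool.Agent.TH117.GN Pool.Agent.R299.FF2

/-- The Tate conjecture for the function field of a variety `X` in the class generated by products of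
powers of the factors of abelian varieties of dimension at most five (or with factors of dimension at
most three), for the pairs `(i, k)` with `2 k ≤ i` or `i = k ≤ 2`, and for all pairs if `X` is a surface
or a curve. -/
theorem result (p : ℕ) [Fact p.Prime] (ν : PadicAlgCl p ≃+* ℂ) (Ω : Type) [Field Ω]
    [IsAlgClosed Ω] [CharZero Ω] (V : Type) (T : Homology Ω V) (hT : IsHomology T)
    (X : V) (hX : Generated T (IsGood p ν T) X) (d : ℤ)
    (G : Groups Ω) (hG : IsGenericPoint T X d G) (i k : ℤ)
    (h : 2 * k ≤ i ∨ (i = k ∧ k ≤ 2) ∨ d ≤ 2) : GenericTate G d i k :=
  generic_tate hT (tb_good2 hT hX) hG h

end Pool.Agent.Results.MP_677d84_ag.PowersOfFactors
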